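import Mathlib

set_option autoImplicit false
open MeasureTheory Set Filter Topology Real Asymptotics
open scoped ENNReal

namespace Pool.Agent.H.MP_ec0ea5_pr

noncomputable def bw (w : ℝ) : Measure ℝ :=
  (volume.restrict (Ioo 0 1)).withDensity fun v => ENNReal.ofReal (w * v ^ (w - 1))

variable {w : ℝ} {μ β : Measure ℝ}

theorem bw_Iic (hw : 0 < w) {t : ℝ} (h : 0 ≤ t) : bw w (Iic t) = ENNReal.ofReal (min t 1 ^ w) := by
  have m : 0 ≤ min t 1 := le_min h zero_le_one
  have e : (volume.restrict (Ioo (0 : ℝ) 1)).restrict (Iic t) = volume.restrict (Ioc 0 (min t 1)) := by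
    rw [restrict_Ioo_eq_restrict_Ioc, Measure.restrict_restrict measurableSet_Iic]
    congr 1; ext x; simp only [mem_inter_iff, mem_Iic, mem_Ioc, le_min_iff]; tauto
  rw [bw, withDensity_apply _ measurableSet_Iic, e, ← ofReal_integral_eq_lintegral_ofReal
    ((intervalIntegral.intervalIntegrable_rpow' (by linarith)).const_mul w).1
    (ae_restrict_of_forall_mem measurableSet_Ioc fun x hx => by
      have := hx.1; simp only [Pi.zero_apply]; positivity),
    ← intervalIntegral.integral_of_le m, intervalIntegral.integral_const_mul,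
    integral_rpow (Or.inl (by linarith)), sub_add_cancel, zero_rpow hw.ne']
  congr 1; field_simp; ring

structure Eqn (w : ℝ) (μ β : Measure ℝ) : Prop where
  hw : 0 < w
  p1 : IsProbabilityMeasure μ
  p2 : IsProbabilityMeasure β
  ac : β ≪ μ
  z : μ (Iic 0) = 0
  eq : μ = ((bw w).prod β).map fun p => p.1 * p.2

theorem Eqn.pos (h : Eqn w μ β) : ∀ᵐ y ∂β, 0 < y := by
  rw [ae_iff]; simp only [not_lt]; exact h.ac h.z

theorem Eqn.app (h : Eqn w μ β) {s : Set ℝ} (hs : MeasurableSet s) :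
    μ s = ∫⁻ y, bw w {v | v * y ∈ s} ∂β := by
  have := h.p2
  have : SFinite (bw w) := by unfold bw; infer_instance
  have m : Measurable fun p : ℝ × ℝ => p.1 * p.2 := by fun_prop
  rw [h.eq, Measure.map_apply m hs, Measure.prod_apply_symm (m hs)]
  rfl

theorem Eqn.ne (h : Eqn w μ β) (x : ℝ) : ∀ᵐ y ∂β, y ≠ x := by
  have : μ {x} = 0 := by
    rw [h.app (measurableSet_singleton x)]
    refine (lintegral_congr_ae ?_).trans lintegral_zero
    filter_upwards [h.pos] with y hy
    refine withDensity_absolutelyContinuous _ _ (measure_mono_null (t := {x / y}) (fun v hv => ?_)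
      (measure_singleton _))
    simp only [mem_ofPred_eq, mem_singleton_iff] at hv ⊢
    rw [← hv, mul_div_cancel_right₀ _ hy.ne']
  simpa [ae_iff] using h.ac this

theorem phi_le {x y : ℝ} (hw : 0 < w) (hx : 0 ≤ x) (hy : 0 < y) :
    ‖y ^ (-w) * min x y ^ w‖ ≤ 1 := by
  have := le_min hx hy.le
  rw [norm_of_nonneg (by positivity), rpow_neg hy.le, inv_mul_le_iff₀ (by positivity), mul_one]
  exact rpow_le_rpow this (min_le_right _ _) hw.le

theorem Eqn.cdf (h : Eqn w μ β) {x : ℝ} (hx : 0 ≤ x) :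
    μ.real (Iic x) = ∫ y, y ^ (-w) * min x y ^ w ∂β := by
  rw [integral_eq_lintegral_of_nonneg_ae (by
    filter_upwards [h.pos] with y hy
    have := le_min hx hy.le
    simp only [Pi.zero_apply]; positivity) (by fun_prop), Measure.real, h.app measurableSet_Iic]
  congr 1
  refine lintegral_congr_ae ?_
  filter_upwards [h.pos] with y hy
  rw [show {v | v * y ∈ Iic x} = Iic (x / y) from Set.ext fun v => (le_div_iff₀ hy).symm,
    bw_Iic h.hw (by positivity), ← div_self hy.ne', min_div_div_right hy.le,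
    div_rpow (le_min hx hy.le) hy.le, rpow_neg hy.le, inv_mul_eq_div]

noncomputable def G (w : ℝ) (β : Measure ℝ) (x : ℝ) : ℝ := ∫ y, (Ioi x).indicator (· ^ (-w)) y ∂β

theorem ind_le (hw : 0 < w) {x a : ℝ} (ha : 0 < a) (hx : a ≤ x) (y : ℝ) :
    ‖(Ioi x).indicator (· ^ (-w)) y‖ ≤ a ^ (-w) := by
  by_cases hy : y ∈ Ioi x
  · have := hx.trans (le_of_lt hy)
    rw [indicator_of_mem hy, norm_of_nonneg (rpow_nonneg (ha.le.trans this) _)]
    exact rpow_le_rpow_of_nonpos ha this (by linarith)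
  · rw [indicator_of_notMem hy, norm_zero]; positivity

theorem Eqn.iG (h : Eqn w μ β) {x : ℝ} (hx : 0 < x) :
    Integrable ((Ioi x).indicator (· ^ (-w))) β :=
  have := h.p2
  .of_bound (Measurable.indicator (by fun_prop) measurableSet_Ioi).aestronglyMeasurable _
    (Eventually.of_forall (ind_le h.hw hx le_rfl))

theorem Eqn.iF (h : Eqn w μ β) {x : ℝ} (hx : 0 ≤ x) :
    Integrable (fun y => y ^ (-w) * min x y ^ w) β :=
  have := h.p2
  .of_bound (by fun_prop) 1 (h.pos.mono fun _ hy => phi_le h.hw hx hy)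

theorem Eqn.split (h : Eqn w μ β) {x : ℝ} (hx : 0 < x) :
    μ.real (Iic x) = β.real (Iic x) + x ^ w * G w β x := by
  have := h.p2
  rw [h.cdf hx.le, G, ← integral_const_mul, ← integral_indicator_one measurableSet_Iic,
    ← integral_add (f := (Iic x).indicator 1) ((integrable_const 1).indicator measurableSet_Iic)
      ((h.iG hx).const_mul _)]
  refine integral_congr_ae ?_
  filter_upwards [h.pos] with y hy
  rcases le_or_gt y x with h1 | h1
  · simp [h1, rpow_neg hy.le, inv_mul_cancel₀ (rpow_pos_of_pos hy w).ne']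
  · simp [h1, h1.le, mul_comm]

theorem Eqn.G_pos (h : Eqn w μ β) {x : ℝ} (hx : 0 < x) (h1 : μ.real (Iic x) < 1) :
    0 < G w β x := by
  have := h.p2
  have n : ∀ y, 0 ≤ (Ioi x).indicator (· ^ (-w)) y := fun y =>
    indicator_nonneg (fun y hy => rpow_nonneg (hx.le.trans (le_of_lt hy)) _) y
  refine (integral_nonneg n).lt_of_ne fun h2 => h1.ne ?_
  rw [h.split hx, G, ← h2, mul_zero, add_zero, Measure.real, (prob_compl_eq_zero_iff
    measurableSet_Iic).1, ENNReal.toReal_one]
  refine (measure_eq_zero_iff_ae_notMem).2 ?_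
  filter_upwards [(integral_eq_zero_iff_of_nonneg n (h.iG hx)).1 h2.symm] with y hy hy'
  rw [compl_Iic] at hy'
  rw [indicator_of_mem hy'] at hy
  exact (rpow_pos_of_pos (hx.trans hy') _).ne' hy

theorem Eqn.der (h : Eqn w μ β) {x : ℝ} (hx : 0 < x) :
    HasDerivAt (fun x => μ.real (Iic x)) (w * x ^ (w - 1) * G w β x) x := by
  have := h.p2
  have d := hasDerivAt_rpow_const (x := x) (p := w) (Or.inl hx.ne')
  have ev : ∀ᶠ t in 𝓝 x, x / 2 < t := lt_mem_nhds (by linarith)
  have a1 : Tendsto (fun t => ∫ y, ‖(Ioi t).indicator (· ^ (-w)) y -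
      (Ioi x).indicator (· ^ (-w)) y‖ ∂β) (𝓝 x) (𝓝 0) := by
    have := continuousAt_of_dominated (μ := β) (x₀ := x) (F := fun t y =>
      ‖(Ioi t).indicator (· ^ (-w)) y - (Ioi x).indicator (· ^ (-w)) y‖)
      (bound := fun _ => (x / 2) ^ (-w) + (x / 2) ^ (-w))
      (ev.mono fun t ht => ((h.iG (by linarith)).sub (h.iG hx)).norm.1)
      (ev.mono fun t ht => Eventually.of_forall fun y => by
        rw [norm_norm]
        exact (norm_sub_le _ _).trans (add_le_add (ind_le h.hw (by linarith) ht.le y)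
          (ind_le h.hw (by linarith) (by linarith) y))) (integrable_const _) (by
      filter_upwards [h.ne x] with y hy
      refine (continuousAt_const (y := (0 : ℝ))).congr ?_
      rcases hy.lt_or_gt with hy | hy
      · filter_upwards [lt_mem_nhds hy] with t ht
        simp [hy.le, ht.le]
      · filter_upwards [gt_mem_nhds hy] with t ht
        simp [hy, ht])
    simpa [ContinuousAt] using this
  have a2 : (fun t => μ.real (Iic t) - μ.real (Iic x) - (t ^ w - x ^ w) * G w β x) =o[𝓝 x]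
      fun t => t - x := by
    have := d.isBigO_sub.norm_left.mul_isLittleO ((isLittleO_one_iff ℝ).2 a1)
    simp only [mul_one] at this
    refine IsBigO.trans_isLittleO (IsBigO.of_bound' ?_) this
    filter_upwards [ev] with t ht
    have t0 : 0 < t := by linarith
    rw [h.cdf t0.le, h.cdf hx.le, G, ← integral_const_mul, ← integral_sub (h.iF t0.le) (h.iF hx.le),
      ← integral_sub (f := fun a => a ^ (-w) * min t a ^ w - a ^ (-w) * min x a ^ w)
        ((h.iF t0.le).sub (h.iF hx.le)) ((h.iG hx).const_mul _), ← integral_const_mul]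
    refine (norm_integral_le_of_norm_le (((h.iG t0).sub (h.iG hx)).norm.const_mul
      ‖t ^ w - x ^ w‖) ?_).trans (le_abs_self _)
    filter_upwards [h.pos] with y hy
    have p := rpow_pos_of_pos hy (-w)
    have k : ∀ {a b : ℝ}, 0 ≤ a → a ≤ b → a ^ w ≤ b ^ w := fun ha hb => rpow_le_rpow ha hb h.hw.le
    simp only [Pi.sub_apply, norm_eq_abs]
    rcases le_or_gt y t with h1 | h1 <;> rcases le_or_gt y x with h2 | h2
    · simp [h1, h2]
    · have := k hx.le h2.le
      have := k hy.le h1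
      simp only [min_eq_right h1, min_eq_left h2.le, indicator, mem_Ioi, h2, h1.not_gt, if_true,
        if_false, zero_sub, abs_neg, abs_of_pos p]
      rw [abs_of_nonpos (by nlinarith), abs_of_nonneg (by linarith)]; nlinarith
    · have := k t0.le h1.le
      have := k hy.le h2
      simp only [min_eq_right h2, min_eq_left h1.le, indicator, mem_Ioi, h1, h2.not_gt, if_true,
        if_false, sub_zero, mul_zero, abs_of_pos p]
      rw [abs_of_nonpos (by nlinarith), abs_of_nonpos (by linarith)]; nlinarith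
    · simp [h1, h2, h1.le, h2.le]; ring_nf
  have a3 : HasDerivAt (fun t => μ.real (Iic t) - μ.real (Iic x) - (t ^ w - x ^ w) * G w β x)
      0 x := hasDerivAt_iff_isLittleO.2 (by simpa using a2)
  have a4 := (a3.fun_add ((d.sub_const (x ^ w)).mul_const (G w β x))).add_const (μ.real (Iic x))
  simpa only [sub_add_cancel, zero_add] using a4

theorem Eqn.quant (h : Eqn w μ β) : ∃ Q : ℝ → ℝ, (volume.restrict (Ioo 0 1)).map Q = μ ∧
    StrictMonoOn Q (Ioo 0 1) ∧ ∀ s ∈ Ioo (0 : ℝ) 1, 0 < Q s ∧ 0 < s - β.real (Iic (Q s)) ∧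
      HasDerivAt Q (Q s / (w * (s - β.real (Iic (Q s))))) s := by
  have := h.p1
  have hw := h.hw
  have hF := fun x => ProbabilityTheory.cdf_eq_real μ x
  obtain ⟨F, F0⟩ : ∃ F : ℝ → ℝ, F = fun x => μ.real (Iic x) := ⟨_, rfl⟩
  have mo : Monotone F := F0 ▸ fun a b hab => measureReal_mono (Iic_subset_Iic.2 hab)
  have de : ∀ x, 0 < x → HasDerivAt F (w * x ^ (w - 1) * G w β x) x := fun x hx => F0 ▸ h.der hx
  have z : F 0 = 0 := by simp [F0, Measure.real, h.z]
  have gp : ∀ x, 0 < x → F x < 1 → 0 < w * x ^ (w - 1) * G w β x := fun x hx h1 => by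
    have := h.G_pos hx (by simpa [F0] using h1)
    positivity
  have ex : ∀ s ∈ Ioo (0 : ℝ) 1, ∃ x, 0 < x ∧ F x = s := fun s hs => by
    have t1 : Tendsto F atTop (𝓝 1) := by
      simpa [F0, ← hF] using ProbabilityTheory.tendsto_cdf_atTop μ
    have t0 : Tendsto F (𝓝[>] 0) (𝓝 0) := by
      have := ((ProbabilityTheory.cdf μ).right_continuous 0).tendsto.mono_left
        (nhdsWithin_mono _ Ioi_subset_Ici_self)
      rw [hF 0, show μ.real (Iic 0) = 0 by simp [Measure.real, h.z]] at this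
      simpa [F0, ← hF] using this
    obtain ⟨a, a1, a2⟩ := ((t0.eventually (gt_mem_nhds hs.1)).and self_mem_nhdsWithin).exists
    obtain ⟨b, b1, b2⟩ := ((t1.eventually (lt_mem_nhds hs.2)).and (eventually_ge_atTop a)).exists
    obtain ⟨x, x1, x2⟩ := intermediate_value_Icc b2 (fun x hx =>
      (de x (lt_of_lt_of_le a2 hx.1)).continuousAt.continuousWithinAt) ⟨a1.le, b1.le⟩
    exact ⟨x, lt_of_lt_of_le a2 x1.1, x2⟩
  choose! Q Q1 Q2 using ex
  have st : ∀ x y, 0 < x → x < y → F x < 1 → F x < F y := fun x y hx hy h1 => by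
    refine (mo hy.le).lt_of_ne fun h2 => ?_
    have c : F =ᶠ[𝓝[>] x] fun _ => F x := by
      filter_upwards [Ioo_mem_nhdsGT hy] with t ht using
        le_antisymm (h2 ▸ mo ht.2.le) (mo ht.1.le)
    exact (gp x hx h1).ne' ((uniqueDiffWithinAt_Ioi x).eq_deriv _ (de x hx).hasDerivWithinAt
      ((hasDerivWithinAt_const x _ (F x)).congr_of_eventuallyEq c rfl))
  have le : ∀ s ∈ Ioo (0 : ℝ) 1, ∀ x, Q s ≤ x ↔ s ≤ F x := fun s hs x => by
    refine ⟨fun h1 => Q2 s hs ▸ mo h1, fun h1 => not_lt.1 fun h2 => ?_⟩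
    have x0 : 0 < x := not_le.1 fun h3 => by linarith [mo h3, hs.1]
    have := mo h2.le
    linarith [st x _ x0 h2 (by linarith [Q2 s hs, hs.2]), Q2 s hs]
  have sm : StrictMonoOn Q (Ioo 0 1) := fun s hs t ht hst =>
    not_le.1 fun h1 => by linarith [(le t ht _).1 h1, Q2 s hs]
  refine ⟨Q, Measure.ext_of_Iic _ _ fun x => ?_, sm, fun s hs => ⟨Q1 s hs, ?_⟩⟩
  · rw [Measure.map_apply_of_aemeasurable (aemeasurable_restrict_of_monotoneOn measurableSet_Ioo
      sm.monotoneOn) measurableSet_Iic, Measure.restrict_apply' measurableSet_Ioo,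
      ← ofReal_measureReal (μ := μ), ← congrFun F0 x]
    have f1 : F x ≤ 1 := by simp [F0]
    refine le_antisymm ((measure_mono (t := Ioc 0 (F x)) fun s hs =>
      ⟨hs.2.1, (le s hs.2 x).1 hs.1⟩).trans (by simp)) (le_trans (by simp)
        (measure_mono (s := Ioo 0 (F x)) fun s hs => ?_))
    have : s ∈ Ioo (0 : ℝ) 1 := ⟨hs.1, hs.2.trans_le f1⟩
    exact ⟨(le s this x).2 hs.2.le, this⟩
  have q := Q1 s hs
  have g := h.G_pos q (by rw [← congrFun F0 _, Q2 s hs]; exact hs.2)
  have e : s - β.real (Iic (Q s)) = Q s ^ w * G w β (Q s) := by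
    rw [sub_eq_iff_eq_add', ← h.split q, ← congrFun F0 _, Q2 s hs]
  rw [e]
  refine ⟨by positivity, ?_⟩
  have c : ContinuousAt Q s := by
    refine continuousAt_of_monotoneOn_of_image_mem_nhds sm.monotoneOn (Ioo_mem_nhds hs.1 hs.2) ?_
    filter_upwards [lt_mem_nhds q, (de _ q).continuousAt.eventually
      (Ioo_mem_nhds (Q2 s hs ▸ hs).1 (Q2 s hs ▸ hs).2)] with x x1 x2
    refine ⟨F x, x2, le_antisymm ((le _ x2 x).2 le_rfl) (not_lt.1 fun h1 => ?_)⟩
    linarith [st _ _ (Q1 _ x2) h1 (by rw [Q2 _ x2]; exact x2.2), Q2 _ x2]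
  refine ((de _ q).of_local_left_inverse c (gp _ q (by rw [Q2 s hs]; exact hs.2)).ne'
    (by filter_upwards [Ioo_mem_nhds hs.1 hs.2] with t ht using Q2 t ht)).congr_deriv ?_
  rw [rpow_sub_one q.ne']
  field_simp

end Pool.Agent.H.MP_ec0ea5_pr
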