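import Pool.Agent.H.MP_ec0ea5_pr.A

set_option autoImplicit false
open MeasureTheory Set Filter Topology Real
open scoped ENNReal

namespace Pool.Agent.H.MP_ec0ea5_pr

variable {w : ℝ} {μ ν : Measure ℝ} {ψ : ℕ → ℝ}

noncomputable def bi (ψ : ℕ → ℝ) (μ : Measure ℝ) : Measure ℝ :=
  Measure.sum fun k => ENNReal.ofReal (ψ k / ∫ x, x ^ k ∂μ) •
    μ.withDensity fun x => ENNReal.ofReal (x ^ k)

structure Nice (w : ℝ) (ψ : ℕ → ℝ) (μ : Measure ℝ) (Q : ℝ → ℝ) (a : ℕ → ℝ) (α : ℝ → ℝ) : Prop where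
  map : (volume.restrict (Ioo 0 1)).map Q = μ
  a0 : ∀ k, ψ k = 0 → a k = 0
  a1 : ∀ k, 0 < ψ k → 0 < a k
  i1 : ∀ k, IntegrableOn (fun s => a k * Q s ^ k) (Ioo 0 1)
  i2 : ∀ k, ∫ s in Ioo 0 1, a k * Q s ^ k = ψ k
  i3 : IntegrableOn α (Ioo 0 1)
  i4 : ∫ s in Ioo 0 1, α s = 1
  pt : ∀ s ∈ Ioo (0 : ℝ) 1, 0 < Q s ∧ HasSum (fun k => a k * Q s ^ k) (α s) ∧ ContinuousAt α s ∧
    0 < s - ∫ r in (0 : ℝ)..s, α r ∧ HasDerivAt Q (Q s / (w * (s - ∫ r in (0 : ℝ)..s, α r))) s

theorem nice (hw : 0 < w) (hψ : ∀ k, 0 ≤ ψ k) (hs : HasSum ψ 1) [IsProbabilityMeasure μ]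
    (z : μ (Iic 0) = 0) (hi : ∀ k, 0 < ψ k → Integrable (fun x => x ^ k) μ)
    (he : μ = ((bw w).prod (bi ψ μ)).map fun p => p.1 * p.2) : ∃ Q a α, Nice w ψ μ Q a α := by
  have pos : ∀ᵐ y ∂μ, 0 < y := by rw [ae_iff]; simp only [not_lt]; exact z
  obtain ⟨a, ha⟩ : ∃ a : ℕ → ℝ, a = fun k => ψ k / ∫ x, x ^ k ∂μ := ⟨_, rfl⟩
  have mp : ∀ k, 0 < ψ k → 0 < ∫ x, x ^ k ∂μ := fun k hk =>
    (integral_pos_iff_support_of_nonneg_ae (pos.mono fun y hy => (pow_pos hy k).le) (hi k hk)).2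
      (by rw [measure_congr (t := univ) (by
        filter_upwards [pos] with y hy using eq_true (pow_pos hy k).ne' |>.trans (eq_true trivial).symm)]; simp)
  have a0 : ∀ k, ψ k = 0 → a k = 0 := fun k hk => by simp [ha, hk]
  have a1 : ∀ k, 0 < ψ k → 0 < a k := fun k hk => ha ▸ div_pos hk (mp k hk)
  have a2 : ∀ k, 0 ≤ a k := fun k => (hψ k).eq_or_lt.elim (fun h => (a0 k h.symm).ge) fun h =>
    (a1 k h).le
  have j1 : ∀ k, Integrable (fun x => a k * x ^ k) μ ∧ ∫ x, a k * x ^ k ∂μ = ψ k := fun k => by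
    rcases (hψ k).eq_or_lt with h | h
    · simp [a0 k h.symm, ← h]
    · exact ⟨(hi k h).const_mul _, by rw [integral_const_mul, ha, div_mul_cancel₀ _ (mp k h).ne']⟩
  have b1 : ∀ s, MeasurableSet s → bi ψ μ s =
      ∑' k, ENNReal.ofReal (∫ x in s, a k * x ^ k ∂μ) := fun s hs => by
    rw [bi, Measure.sum_apply _ hs]
    refine tsum_congr fun k => ?_
    rw [Measure.smul_apply, withDensity_apply _ hs, smul_eq_mul, ← lintegral_const_mul _
      (by fun_prop), ofReal_integral_eq_lintegral_ofReal (j1 k).1.integrableOn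
      (ae_restrict_of_ae (pos.mono fun y hy => mul_nonneg (a2 k) (pow_pos hy k).le))]
    simp only [ENNReal.ofReal_mul (a2 k)]; simp only [ha]
  obtain ⟨Q, q1, q2, q3⟩ := Eqn.quant (w := w) (μ := μ) (β := bi ψ μ) ⟨hw, inferInstance, ⟨by
    simp only [b1 _ MeasurableSet.univ, Measure.restrict_univ, (j1 _).2]
    rw [← ENNReal.ofReal_tsum_of_nonneg hψ hs.summable, hs.tsum_eq, ENNReal.ofReal_one]⟩,
    Measure.AbsolutelyContinuous.mk fun s hs h0 => by
      simp [b1 s hs, setIntegral_measure_zero _ h0], z, he⟩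
  have mQ := aemeasurable_restrict_of_monotoneOn (μ := volume) measurableSet_Ioo q2.monotoneOn
  have i1 : ∀ k, IntegrableOn (fun s => a k * Q s ^ k) (Ioo 0 1) := fun k =>
    (integrable_map_measure (g := fun x => a k * x ^ k) (by fun_prop) mQ).1 (q1 ▸ (j1 k).1)
  have i2 : ∀ k, ∫ s in Ioo 0 1, a k * Q s ^ k = ψ k := fun k => by
    rw [← (j1 k).2, ← q1, integral_map mQ (by fun_prop)]
  have nn : ∀ k, ∀ s ∈ Ioo (0 : ℝ) 1, 0 ≤ a k * Q s ^ k := fun k s hs =>
    mul_nonneg (a2 k) (pow_pos (q3 s hs).1 k).le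
  have sn : ∀ t ⊆ Ioo (0 : ℝ) 1, MeasurableSet t → Summable fun k => ∫ s in t, ‖a k * Q s ^ k‖ :=
    fun t ht mt => hs.summable.of_nonneg_of_le (fun k => integral_nonneg fun _ => norm_nonneg _)
      fun k => (setIntegral_mono_set (i1 k).norm (Eventually.of_forall fun _ => norm_nonneg _)
        ht.eventuallyLE).trans_eq (by
          rw [← i2 k]
          exact setIntegral_congr_fun measurableSet_Ioo fun s hs => norm_of_nonneg (nn k s hs))
  have su : ∀ s ∈ Ioo (0 : ℝ) 1, Summable fun k => a k * Q s ^ k := fun s hs => by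
    have := (ae_restrict_iff' measurableSet_Ioo).1 (summable_norm_of_tsum_eLpNorm_ne_top le_rfl
      (fun k => (i1 k).1) (by
        simp only [eLpNorm_one_eq_lintegral_enorm, ← ofReal_integral_norm_eq_lintegral_enorm (i1 _)]
        rw [← ENNReal.ofReal_tsum_of_nonneg (fun k => integral_nonneg fun _ => norm_nonneg _)
          (sn _ subset_rfl measurableSet_Ioo)]
        exact ENNReal.ofReal_ne_top))
    by_contra h
    have h1 : volume (Ioo s 1) = 0 := measure_mono_null (fun r hr => show ¬ _ from fun h2 => by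
      have h3 : r ∈ Ioo (0 : ℝ) 1 := ⟨hs.1.trans hr.1, hr.2⟩
      exact h ((h2 h3).of_norm.of_nonneg_of_le (fun k => nn k s hs) fun k => mul_le_mul_of_nonneg_left
        (pow_le_pow_left₀ (q3 s hs).1.le (q2 hs h3 hr.1).le k) (a2 k))) this
    simp at h1; linarith [hs.2]
  have hI := fun t ht mt => hasSum_integral_of_summable_integral_norm
    (μ := volume.restrict t) (fun k => (i1 k).mono_set ht) (sn t ht mt)
  have i4 := (hI _ subset_rfl measurableSet_Ioo).unique (by simpa only [i2] using hs)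
  refine ⟨Q, a, fun s => ∑' k, a k * Q s ^ k, q1, a0, a1, i1, i2,
    Integrable.of_integral_ne_zero (i4.trans_ne one_ne_zero), i4, fun s hs => ?_⟩
  obtain ⟨c1, c2, c3⟩ := q3 s hs
  have e : (bi ψ μ).real (Iic (Q s)) = ∫ r in (0 : ℝ)..s, ∑' k, a k * Q r ^ k := by
    have sub : Ioc 0 s ⊆ Ioo (0 : ℝ) 1 := fun r hr => ⟨hr.1, hr.2.trans_lt hs.2⟩
    have h1 := hI _ sub measurableSet_Ioc
    rw [intervalIntegral.integral_of_le hs.1.le, ← h1.tsum_eq, Measure.real,
      b1 _ measurableSet_Iic]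
    have e2 : ∀ k, ∫ x in Iic (Q s), a k * x ^ k ∂μ = ∫ r in Ioc 0 s, a k * Q r ^ k := fun k => by
      rw [← q1, setIntegral_map measurableSet_Iic (by fun_prop) mQ,
        Measure.restrict_restrict₀ (mQ.nullMeasurableSet_preimage measurableSet_Iic)]
      congr 2
      ext r
      exact ⟨fun h => ⟨h.2.1, (q2.le_iff_le h.2 hs).1 h.1⟩, fun h =>
        ⟨(q2.le_iff_le (sub h) hs).2 h.2, sub h⟩⟩
    have n2 := fun k => setIntegral_nonneg (μ := volume) measurableSet_Ioc fun r hr =>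
      nn k r (sub hr)
    simp only [e2]
    rw [← ENNReal.ofReal_tsum_of_nonneg n2 h1.summable, ENNReal.toReal_ofReal (tsum_nonneg n2)]
  rw [e] at c2 c3
  refine ⟨c1, (su s hs).hasSum, ?_, c2, c3⟩
  obtain ⟨r, r1, r2⟩ := exists_between hs.2
  have hr : r ∈ Ioo (0 : ℝ) 1 := ⟨hs.1.trans r1, r2⟩
  refine (continuousOn_tsum (s := Ioo 0 r) (fun k t ht => ?_) (su r hr) fun k t ht => ?_).continuousAt
    (Ioo_mem_nhds hs.1 r1)
  · exact (((q3 t ⟨ht.1, ht.2.trans r2⟩).2.2.continuousAt.pow k).const_mul _).continuousWithinAt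
  · have h3 : t ∈ Ioo (0 : ℝ) 1 := ⟨ht.1, ht.2.trans r2⟩
    rw [norm_of_nonneg (nn k t h3)]
    exact mul_le_mul_of_nonneg_left (pow_le_pow_left₀ (q3 t h3).1.le (q2 h3 hr ht.2).le k) (a2 k)

theorem cheb {a b x y : ℝ} {k : ℕ} (ha : 0 < a) (hb : 0 < b) (hx : 0 < x) (hy : 0 < y)
    (hk : 0 < k) : 0 ≤ (b * y ^ k - a * x ^ k) *
      (arctan (log y - log x) - arctan ((log a - log b) / k)) := by
  have k0 : (0 : ℝ) < k := by exact_mod_cast hk
  have e : ∀ {c z : ℝ}, 0 < c → 0 < z → log (c * z ^ k) = log c + k * log z := fun hc hz => by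
    rw [log_mul hc.ne' (by positivity), log_pow]
  rcases le_total (a * x ^ k) (b * y ^ k) with h | h
  · have := log_le_log (by positivity) h
    rw [e ha hx, e hb hy] at this
    exact mul_nonneg (sub_nonneg.2 h) (sub_nonneg.2 (arctan_strictMono.monotone
      ((div_le_iff₀ k0).2 (by linarith))))
  · have := log_le_log (by positivity) h
    rw [e ha hx, e hb hy] at this
    exact mul_nonneg_of_nonpos_of_nonpos (sub_nonpos.2 h) (sub_nonpos.2 (arctan_strictMono.monotone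
      ((le_div_iff₀ k0).2 (by linarith))))

theorem uniq (hw : 0 < w) (h0 : ψ 0 = 0) (hψ : ∀ k, 0 ≤ ψ k) (hs : Summable ψ)
    {Q R α β : ℝ → ℝ} {a b : ℕ → ℝ} (h1 : Nice w ψ μ Q a α) (h2 : Nice w ψ ν R b β) :
    ∃ c : ℝ, 0 < c ∧ ν = μ.map fun x => c * x := by
  obtain ⟨V, hV⟩ : ∃ V, V = fun s => log (R s) - log (Q s) := ⟨_, rfl⟩
  obtain ⟨A, hA⟩ : ∃ A, A = fun s => ∫ r in (0 : ℝ)..s, α r := ⟨_, rfl⟩
  obtain ⟨B, hB⟩ : ∃ B, B = fun s => ∫ r in (0 : ℝ)..s, β r := ⟨_, rfl⟩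
  have dV : ∀ s ∈ Ioo (0 : ℝ) 1, HasDerivAt V ((B s - A s) / (w * (s - A s) * (s - B s))) s :=
    fun s hs => by
      obtain ⟨p1, -, -, p2, p3⟩ := h1.pt s hs
      obtain ⟨r1, -, -, r2, r3⟩ := h2.pt s hs
      rw [hV]
      refine ((r3.log r1.ne').fun_sub (p3.log p1.ne')).congr_deriv ?_
      simp only [hA, hB]
      field_simp; ring
  have cV : ContinuousOn V (Ioo 0 1) := fun s hs => (dV s hs).continuousAt.continuousWithinAt
  have mV : AEStronglyMeasurable (fun s => arctan (V s)) (volume.restrict (Ioo 0 1)) :=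
    (continuous_arctan.comp_continuousOn cV).aestronglyMeasurable measurableSet_Ioo
  have bV : ∀ s, ‖arctan s‖ ≤ 2 := fun s => (abs_le.2 ⟨by linarith [neg_pi_div_two_lt_arctan s,
    pi_le_four], by linarith [arctan_lt_pi_div_two s, pi_le_four]⟩)
  have im : ∀ {f : ℝ → ℝ}, IntegrableOn f (Ioo 0 1) →
      IntegrableOn (fun s => f s * arctan (V s)) (Ioo 0 1) := fun hf =>
    Integrable.mul_bdd hf mV (Eventually.of_forall fun s => bV _)
  have nn : ∀ {μ Q a α}, Nice w ψ μ Q a α → ∀ k, ∀ s ∈ Ioo (0 : ℝ) 1, 0 ≤ a k * Q s ^ k :=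
    fun h k s hs => mul_nonneg ((hψ k).eq_or_lt.elim (fun e => (h.a0 k e.symm).ge) fun e =>
      (h.a1 k e).le) (pow_pos (h.pt s hs).1 k).le
  have key : 0 ≤ ∫ s in Ioo 0 1, (β s - α s) * arctan (V s) := by
    have i := fun k => im (f := fun s => b k * R s ^ k - a k * Q s ^ k) ((h2.i1 k).sub (h1.i1 k))
    have := hasSum_integral_of_summable_integral_norm i ((hs.mul_left 4).of_nonneg_of_le
      (fun k => integral_nonneg fun _ => norm_nonneg _) fun k => by
        refine (setIntegral_mono_on (g := fun s => 2 * (b k * R s ^ k + a k * Q s ^ k)) (i k).norm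
          (((h2.i1 k).add (h1.i1 k)).const_mul 2) measurableSet_Ioo fun s hs => ?_).trans_eq ?_
        · rw [norm_mul, mul_comm]
          refine mul_le_mul (bV _) (abs_le.2 ⟨?_, ?_⟩) (norm_nonneg _) zero_le_two <;>
            linarith [nn h1 k s hs, nn h2 k s hs]
        · rw [integral_const_mul, integral_add (h2.i1 k) (h1.i1 k), h1.i2, h2.i2]; ring)
    rw [setIntegral_congr_fun measurableSet_Ioo (g := fun s => (β s - α s) * arctan (V s))
      fun s hs => (((h2.pt s hs).2.1.sub (h1.pt s hs).2.1).mul_right _).tsum_eq] at this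
    refine this.nonneg fun k => ?_
    rcases (hψ k).eq_or_lt with e | e
    · simp [h1.a0 k e.symm, h2.a0 k e.symm]
    have k0 : 0 < k := Nat.pos_of_ne_zero (by rintro rfl; exact e.ne' h0)
    have := setIntegral_nonneg (μ := volume) measurableSet_Ioo fun s hs =>
      cheb (h1.a1 k e) (h2.a1 k e) (h1.pt s hs).1 (h2.pt s hs).1 k0
    simp only [mul_sub (_ - _)] at this
    have i' : Integrable (fun s => b k * R s ^ k - a k * Q s ^ k) (volume.restrict (Ioo 0 1)) :=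
      (h2.i1 k).sub (h1.i1 k)
    rw [integral_sub (by have := i k; rw [hV] at this; exact this) (i'.mul_const _),
      integral_mul_const, integral_sub (h2.i1 k) (h1.i1 k), h1.i2, h2.i2] at this
    simpa [hV] using this
  have ftc : ∀ {f : ℝ → ℝ}, IntegrableOn f (Ioo 0 1) → (∀ s ∈ Ioo (0 : ℝ) 1, ContinuousAt f s) →
      ContinuousOn (fun s => ∫ r in (0 : ℝ)..s, f r) (Icc 0 1) ∧
      ∀ s ∈ Ioo (0 : ℝ) 1, HasDerivAt (fun s => ∫ r in (0 : ℝ)..s, f r) (f s) s := fun hf hc => by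
    have i := (integrableOn_Icc_iff_integrableOn_Ioo).2 hf
    have c := intervalIntegral.continuousOn_primitive_interval (a := 0) (b := 1) (by simpa using i)
    refine ⟨by simpa using c, fun s hs => intervalIntegral.integral_hasDerivAt_right
        ((intervalIntegrable_iff_integrableOn_Icc_of_le hs.1.le).2
          (i.mono_set (Icc_subset_Icc_right hs.2.le)))
        (ContinuousAt.stronglyMeasurableAtFilter isOpen_Ioo hc s hs) (hc s hs)⟩
  obtain ⟨A1, A2⟩ := ftc h1.i3 fun s hs => (h1.pt s hs).2.2.1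
  obtain ⟨B1, B2⟩ := ftc h2.i3 fun s hs => (h2.pt s hs).2.2.1
  obtain ⟨J1, J2⟩ := ftc (im (f := fun s => β s - α s) (h2.i3.sub h1.i3)) fun s hs =>
    ((h2.pt s hs).2.2.1.sub (h1.pt s hs).2.2.1).mul
      (continuous_arctan.continuousAt.comp (dV s hs).continuousAt)
  rw [← hA] at A1 A2
  rw [← hB] at B1 B2
  obtain ⟨J, hJ⟩ : ∃ J, J = fun s => ∫ r in (0 : ℝ)..s, (β r - α r) * arctan (V r) := ⟨_, rfl⟩
  rw [← hJ] at J1 J2
  have i1 : ∀ f : ℝ → ℝ, ∫ r in (0 : ℝ)..1, f r = ∫ r in Ioo 0 1, f r := fun f => by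
    rw [intervalIntegral.integral_of_le zero_le_one, integral_Ioc_eq_integral_Ioo]
  obtain ⟨U, hU⟩ : ∃ U, U = fun s => (B s - A s) * arctan (V s) - J s := ⟨_, rfl⟩
  have dU : ∀ s ∈ Ioo (0 : ℝ) 1, HasDerivAt U
      ((B s - A s) ^ 2 / (w * (s - A s) * (s - B s) * (1 + V s ^ 2))) s := fun s hs => by
    rw [hU]
    refine (((((B2 s hs).fun_sub (A2 s hs)).fun_mul (dV s hs).arctan)).fun_sub
      (J2 s hs)).congr_deriv ?_
    field_simp; ring
  have ps : ∀ s ∈ Ioo (0 : ℝ) 1, 0 < w * (s - A s) * (s - B s) * (1 + V s ^ 2) := fun s hs => by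
    have := (h1.pt s hs).2.2.2.1
    have := (h2.pt s hs).2.2.2.1
    simp only [hA, hB]; positivity
  have mo : MonotoneOn U (Ioo 0 1) := monotoneOn_of_deriv_nonneg (convex_Ioo 0 1)
    (fun s hs => (dU s hs).continuousAt.continuousWithinAt)
    (fun s hs => (dU s (interior_subset hs)).differentiableAt.differentiableWithinAt) fun s hs => by
      rw [(dU s (interior_subset hs)).deriv]
      exact div_nonneg (sq_nonneg _) (ps s (interior_subset hs)).le
  have lim : ∀ x ∈ Icc (0 : ℝ) 1, B x - A x = 0 → Tendsto U (𝓝[Ioo 0 1] x) (𝓝 (0 - J x)) :=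
    fun x hx e => by
      rw [hU]
      refine Tendsto.sub (Filter.Tendsto.zero_mul_isBoundedUnder_le ?_ (isBoundedUnder_of
        ⟨2, fun s => bV _⟩)) ((J1 x hx).mono Ioo_subset_Icc_self)
      have := (((B1 x hx).fun_sub (A1 x hx)).mono Ioo_subset_Icc_self).tendsto
      rwa [e] at this
  have U0 : ∀ s ∈ Ioo (0 : ℝ) 1, U s = 0 := fun s hs => by
    have := left_nhdsWithin_Ioo_neBot (zero_lt_one' ℝ)
    have := right_nhdsWithin_Ioo_neBot (zero_lt_one' ℝ)
    have l0 := le_of_tendsto (b := U s) (lim 0 (by simp) (by simp [hA, hB])) (by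
      filter_upwards [self_mem_nhdsWithin, nhdsWithin_le_nhds (gt_mem_nhds hs.1)] with t t1 t2
        using mo t1 hs t2.le)
    have l1 := ge_of_tendsto (b := U s) (lim 1 (by simp) (by
      simp only [hA, hB, i1, h1.i4, h2.i4, sub_self])) (by
      filter_upwards [self_mem_nhdsWithin, nhdsWithin_le_nhds (lt_mem_nhds hs.2)] with t t1 t2
        using mo hs t1 t2.le)
    simp only [hJ, i1, intervalIntegral.integral_same] at l0 l1
    linarith
  obtain ⟨c, hc⟩ := isOpen_Ioo.exists_is_const_of_deriv_eq_zero isPreconnected_Ioo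
    (fun s hs => (dV s hs).differentiableAt.differentiableWithinAt) fun s hs => by
      have := (dU s hs).unique ((hasDerivAt_const s (0 : ℝ)).congr_of_eventuallyEq (by
        filter_upwards [Ioo_mem_nhds hs.1 hs.2] with t ht using U0 t ht))
      rw [div_eq_zero_iff, or_iff_left (ps s hs).ne', sq_eq_zero_iff] at this
      simp [(dV s hs).deriv, this]
  refine ⟨exp c, exp_pos c, ?_⟩
  rw [← h1.map, ← h2.map, AEMeasurable.map_map_of_aemeasurable (by fun_prop)
    (ContinuousOn.aemeasurable (fun s hs => (h1.pt s hs).2.2.2.2.continuousAt.continuousWithinAt)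
      measurableSet_Ioo)]
  refine Measure.map_congr (ae_restrict_of_forall_mem measurableSet_Ioo fun s hs => ?_)
  simp only [Function.comp, ← hc s hs, hV, exp_sub, exp_log (h1.pt s hs).1, exp_log (h2.pt s hs).1]
  rw [div_mul_cancel₀ _ (h1.pt s hs).1.ne']

end Pool.Agent.H.MP_ec0ea5_pr
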